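import Pool.Agent.Helper5.NE.Defs

/-! COUNT: few sequences with few free places. -/

open MeasureTheory Filter Topology

namespace Pool.Agent.Helper48.NE

open Pool.Agent.Helper5.KM Pool.Agent.Helper5.NE

theorem count (B : ℕ) (s : ℝ) (hs : 0 < s) : ∃ η : ℝ, 0 < η ∧ ∀ K : ℕ,
    (((Finset.univ : Finset (Fin K → Option (Fin B))).filter fun E =>
      ((Finset.univ.filter fun t => E t ≠ none).card : ℝ) ≤ η * K).card : ℝ) ≤
        Real.exp (s * K) := by
  classical
  set lam : ℝ := min 1 (s / (2 * (B + 1))) with hlam
  have hB : (0 : ℝ) < B + 1 := by positivity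
  have hl0 : 0 < lam := lt_min one_pos (by positivity)
  have hl1 : lam ≤ 1 := min_le_left _ _
  have hlB : lam * B ≤ s / 2 := by
    calc lam * B ≤ s / (2 * (B + 1)) * (B + 1) :=
          mul_le_mul (min_le_right _ _) (by linarith) (by positivity) (by positivity)
      _ = s / 2 := by field_simp
  have hlog : 0 ≤ -Real.log lam := by
    have := Real.log_nonpos hl0.le hl1
    linarith
  set η : ℝ := s / (2 * (1 - Real.log lam)) with hη
  have h1 : 0 < 1 - Real.log lam := by linarith
  have hη0 : 0 < η := by positivity
  have hηs : η * (-Real.log lam) ≤ s / 2 := by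
    calc η * (-Real.log lam) ≤ η * (1 - Real.log lam) := by
          apply mul_le_mul_of_nonneg_left _ hη0.le; linarith
      _ = s / 2 := by rw [hη]; field_simp
  refine ⟨η, hη0, fun K => ?_⟩
  set w : Option (Fin B) → ℝ := fun x => if x = none then 1 else lam with hw
  have hsum : ∑ E : Fin K → Option (Fin B), ∏ t, w (E t) = (1 + lam * B) ^ K := by
    have h2 : (1 + lam * B : ℝ) = ∑ x : Option (Fin B), w x := by
      rw [Fintype.sum_option]
      simp [hw, mul_comm]
    rw [h2]
    have := (Finset.prod_univ_sum (fun _ : Fin K => (Finset.univ : Finset (Option (Fin B))))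
      (fun _ x => w x)).symm
    rw [Fintype.piFinset_univ] at this
    rw [this]
    simp
  have hw0 : ∀ x, 0 ≤ w x := by
    intro x; rw [hw]; dsimp only; split_ifs <;> positivity
  have hprod : ∀ E : Fin K → Option (Fin B), ∏ t, w (E t) =
      lam ^ ((Finset.univ.filter fun t => E t ≠ none).card) := by
    intro E
    rw [Finset.card_filter, ← Finset.prod_pow_eq_pow_sum]
    refine Finset.prod_congr rfl fun t _ => ?_
    rw [hw]
    by_cases h : E t = none <;> simp [h]
  set F := (Finset.univ : Finset (Fin K → Option (Fin B))).filter fun E =>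
      ((Finset.univ.filter fun t => E t ≠ none).card : ℝ) ≤ η * K with hF
  have hmain : (F.card : ℝ) * Real.exp (Real.log lam * (η * K)) ≤ (1 + lam * B) ^ K := by
    rw [← hsum, ← nsmul_eq_mul]
    calc F.card • Real.exp (Real.log lam * (η * K)) ≤ ∑ E ∈ F, ∏ t, w (E t) := by
          apply Finset.card_nsmul_le_sum
          intro E hE
          rw [hprod E]
          have h3 := (Finset.mem_filter.1 hE).2
          have h4 : lam ^ ((Finset.univ.filter fun t => E t ≠ none).card) =
              Real.exp (Real.log lam * ((Finset.univ.filter fun t => E t ≠ none).card : ℝ)) := by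
            rw [mul_comm, Real.exp_nat_mul, Real.exp_log hl0]
          rw [h4]
          apply Real.exp_le_exp.2
          nlinarith
      _ ≤ ∑ E : Fin K → Option (Fin B), ∏ t, w (E t) :=
          Finset.sum_le_sum_of_subset_of_nonneg (Finset.filter_subset _ _)
            fun E _ _ => Finset.prod_nonneg fun t _ => hw0 _
  have h5 : (1 + lam * B) ^ K ≤ Real.exp (lam * B * K) := by
    rw [mul_comm (lam * B), Real.exp_nat_mul]
    apply pow_le_pow_left₀ (by positivity)
    linarith [Real.add_one_le_exp (lam * B)]
  have h6 : (F.card : ℝ) ≤ Real.exp (lam * B * K) * Real.exp (-(Real.log lam * (η * K))) := by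
    rw [Real.exp_neg, ← div_eq_mul_inv, le_div_iff₀ (Real.exp_pos _)]
    exact hmain.trans h5
  refine h6.trans ?_
  rw [← Real.exp_add]
  apply Real.exp_le_exp.2
  have hK : (0 : ℝ) ≤ K := Nat.cast_nonneg K
  nlinarith

end Pool.Agent.Helper48.NE
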