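import Pool.Agent.Helper48.NE.Count

/-! COVER: the exceptional numbers are covered by few short intervals. -/

open MeasureTheory Filter Topology

namespace Pool.Agent.Helper48.NE

open Pool.Agent.Helper5.KM Pool.Agent.Helper5.NE

/-- reconstruct the rounded multiples from the increments -/
def recon (b : ℕ) (E : ℕ → ℤ) (M : ℕ) (a : ℤ) : ℕ → ℤ
  | 0 => a
  | n + 1 => b * recon b E M a n + E (M + n)

/-- decode -/
def dec (b K : ℕ) (E : Fin K → Option (Fin (b + 3))) (t : ℕ) : ℤ :=
  if h : t < K then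
    match E ⟨t, h⟩ with
    | none => 0
    | some i => (i : ℤ) - ((b + 1) / 2 : ℕ)
  else 0

theorem round_eq_of_lt {x : ℝ} {n : ℤ} (h : |x - n| < 1 / 2) : round x = n := by
  have h1 := abs_sub_round x
  have h2 : |((round x - n : ℤ) : ℝ)| < 1 := by
    push_cast
    calc |(round x : ℝ) - n| = |(x - n) - (x - round x)| := by congr 1; ring
      _ ≤ |x - n| + |x - round x| := abs_sub _ _
      _ < 1 := by linarith
  have h3 : |round x - n| < 1 := by exact_mod_cast h2
  have h4 : round x - n = 0 := Int.abs_lt_one_iff.1 h3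
  omega

theorem cover {b : ℕ} (hb : 2 ≤ b) (s : ℝ) (hs : 0 < s) : ∃ (C₀ : ℕ) (η : ℝ), 1 ≤ C₀ ∧ 0 < η ∧
    ∀ (T : ℝ) (l L R : ℕ), ∃ C : ℝ, ∀ K' : ℕ, ∃ F : Finset ℝ,
      (F.card : ℝ) ≤ C * Real.exp (s * ((C₀ * K' : ℕ) : ℝ)) ∧
      ∀ X : ℝ, |X| ≤ T → Near b l L R (C₀ * K') K' η X →
        ∃ c ∈ F, |X - c| ≤ 1 / (b : ℝ) ^ (C₀ * K') := by
  classical
  obtain ⟨η, hη, hcount⟩ := count (b + 3) (s / 2) (by positivity)
  have hb0 : (0 : ℝ) < b := by exact_mod_cast (by omega : 0 < b)
  have hb1 : (1 : ℝ) ≤ b := by exact_mod_cast (by omega : 1 ≤ b)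
  have hb2 : (2 : ℝ) ≤ b := by exact_mod_cast hb
  set C₀ : ℕ := ⌈4 * Real.log b / s⌉₊ + 1 with hC₀
  have hC₀' : 2 * Real.log b ≤ s / 2 * C₀ := by
    have h1 : 4 * Real.log b / s ≤ C₀ := by
      rw [hC₀]; push_cast
      linarith [Nat.le_ceil (4 * Real.log b / s)]
    rw [div_le_iff₀ hs] at h1
    linarith
  refine ⟨C₀, η, by omega, hη, fun T l L R => ?_⟩
  set N : ℕ := ⌈(b : ℝ) ^ (L + l) * |T|⌉₊ with hN
  refine ⟨2 * N + 3, fun K' => ?_⟩
  set K : ℕ := C₀ * K' with hK
  set M : ℕ := min L K with hM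
  set A : ℕ := N * b ^ K' + 1 with hA
  set EE := (Finset.univ : Finset (Fin K → Option (Fin (b + 3)))).filter fun E =>
      ((Finset.univ.filter fun t => E t ≠ none).card : ℝ) ≤ η * K with hEE
  set F : Finset ℝ := ((Finset.range (b ^ K')) ×ˢ (Finset.Icc (-(A : ℤ)) A) ×ˢ EE).image
    fun p => (recon b (dec b K p.2.2) M p.2.1 (K - M) : ℝ) / ((b : ℝ) ^ (l + K) * p.1) with hF
  refine ⟨F, ?_, fun X hX hnear => ?_⟩
  · have h1 : F.card ≤ b ^ K' * ((2 * A + 1) * EE.card) := by
      refine Finset.card_image_le.trans (le_of_eq ?_)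
      rw [Finset.card_product, Finset.card_product, Finset.card_range, Int.card_Icc]
      congr 2
      omega
    have h2 : (F.card : ℝ) ≤ (b : ℝ) ^ K' * ((2 * A + 1) * EE.card) := by exact_mod_cast h1
    have h3 := hcount K
    have hbK : (1 : ℝ) ≤ (b : ℝ) ^ K' := one_le_pow₀ hb1
    have h4 : (2 * (A : ℝ) + 1) ≤ (2 * N + 3) * (b : ℝ) ^ K' := by
      rw [hA]; push_cast; nlinarith
    have h5 : (b : ℝ) ^ K' * (b : ℝ) ^ K' ≤ Real.exp (s / 2 * K) := by
      rw [← Real.exp_log hb0, ← Real.exp_nat_mul, ← Real.exp_add]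
      apply Real.exp_le_exp.2
      rw [hK]; push_cast
      have : (0 : ℝ) ≤ K' := Nat.cast_nonneg _
      nlinarith
    calc (F.card : ℝ) ≤ (b : ℝ) ^ K' * ((2 * A + 1) * EE.card) := h2
      _ ≤ (b : ℝ) ^ K' * (((2 * N + 3) * (b : ℝ) ^ K') * Real.exp (s / 2 * K)) := by
          gcongr
      _ = (2 * N + 3) * ((b : ℝ) ^ K' * (b : ℝ) ^ K' * Real.exp (s / 2 * K)) := by ring
      _ ≤ (2 * N + 3) * (Real.exp (s / 2 * K) * Real.exp (s / 2 * K)) := by gcongr
      _ = (2 * N + 3) * Real.exp (s * K) := by rw [← Real.exp_add]; congr 2; ring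
  · obtain ⟨D, hD0, hD, J, hJ, hJc, hJn⟩ := hnear
    have hDr : (1 : ℝ) ≤ D := by exact_mod_cast hD0
    have hDr0 : (0 : ℝ) < D := by linarith
    set x : ℝ := (b : ℝ) ^ l * X * D with hx
    have hxj : ∀ j : ℕ, (b : ℝ) ^ (l + j) * X * D = (b : ℝ) ^ j * x := fun j => by
      rw [hx, pow_add]; ring
    set c : ℕ → ℤ := fun t => round ((b : ℝ) ^ t * x) with hc
    have hcr : ∀ t, |(b : ℝ) ^ t * x - c t| ≤ 1 / 2 := fun t => abs_sub_round _
    -- the increments
    have hinc : ∀ t, |c (t + 1) - b * c t| ≤ ((b + 1) / 2 : ℕ) := by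
      intro t
      have h1 : |((c (t + 1) - b * c t : ℤ) : ℝ)| ≤ ((b : ℝ) + 1) / 2 := by
        push_cast
        calc |(c (t + 1) : ℝ) - b * c t| =
            |b * ((b : ℝ) ^ t * x - c t) - ((b : ℝ) ^ (t + 1) * x - c (t + 1))| := by
              congr 1; rw [pow_succ]; ring
          _ ≤ |b * ((b : ℝ) ^ t * x - c t)| + |(b : ℝ) ^ (t + 1) * x - c (t + 1)| := abs_sub _ _
          _ ≤ b * (1 / 2) + 1 / 2 := by
              rw [abs_mul, abs_of_pos hb0]
              have := hcr t; have := hcr (t + 1)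
              gcongr
          _ = ((b : ℝ) + 1) / 2 := by ring
      have h2 : ((2 * |c (t + 1) - b * c t| : ℤ) : ℝ) ≤ ((b + 1 : ℕ) : ℝ) := by
        push_cast at h1 ⊢
        linarith
      have h3 : 2 * |c (t + 1) - b * c t| ≤ ((b + 1 : ℕ) : ℤ) := by exact_mod_cast h2
      omega
    have hcov : ∀ t, (∃ j ∈ J, j ≤ t ∧ t < j + R) → c (t + 1) - b * c t = 0 := by
      rintro t ⟨j, hj, hjt, htj⟩
      have h1 := hJn j hj
      rw [hxj j] at h1
      change |(b : ℝ) ^ j * x - c j| ≤ _ at h1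
      have hkey : ∀ u ≤ R, c (j + u) = (b : ℤ) ^ u * c j := by
        intro u hu
        apply round_eq_of_lt
        push_cast
        have h2 : (b : ℝ) ^ (j + u) * x - (b : ℝ) ^ u * c j =
            (b : ℝ) ^ u * ((b : ℝ) ^ j * x - c j) := by rw [pow_add]; ring
        rw [h2, abs_mul, abs_of_pos (by positivity)]
        calc (b : ℝ) ^ u * |(b : ℝ) ^ j * x - c j| ≤ (b : ℝ) ^ R * (1 / (b : ℝ) ^ (R + 2)) := by
              gcongr
          _ = 1 / (b : ℝ) ^ 2 := by rw [pow_add]; field_simp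
          _ ≤ 1 / 2 ^ 2 := by gcongr
          _ < 1 / 2 := by norm_num
      obtain ⟨u, rfl⟩ := Nat.exists_eq_add_of_le hjt
      have h3 := hkey u (by omega)
      have h4 := hkey (u + 1) (by omega)
      rw [show j + u + 1 = j + (u + 1) by ring, h3, h4]
      ring
    -- the code
    set h0 : ℕ := (b + 1) / 2 with hh0
    set E : Fin K → Option (Fin (b + 3)) := fun t =>
      if M ≤ (t : ℕ) ∧ ∀ j ∈ J, ¬ (j ≤ (t : ℕ) ∧ (t : ℕ) < j + R) then
        some ⟨(c (t + 1) - b * c t + h0).toNat, by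
          have := hinc t
          have h1 := abs_le.1 this
          omega⟩
      else none with hE
    have hEmem : E ∈ EE := by
      rw [hEE, Finset.mem_filter]
      refine ⟨Finset.mem_univ _, le_trans ?_ hJc⟩
      have h1 : (Finset.univ.filter fun t => E t ≠ none).card ≤
          ((Finset.Ico L K).filter fun t => ∀ j ∈ J, ¬ (j ≤ t ∧ t < j + R)).card := by
        refine Finset.card_le_card_of_injOn (fun t => (t : ℕ)) ?_
          (fun a _ b _ h => Fin.ext h)
        intro t ht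
        have ht' := (Finset.mem_filter.1 (Finset.mem_coe.1 ht)).2
        have ht2 : M ≤ (t : ℕ) ∧ ∀ j ∈ J, ¬ (j ≤ (t : ℕ) ∧ (t : ℕ) < j + R) := by
          by_contra hcon
          apply ht'
          rw [hE]; dsimp only
          rw [if_neg hcon]
        apply Finset.mem_coe.2
        rw [Finset.mem_filter, Finset.mem_Ico]
        have := t.2
        refine ⟨⟨?_, t.2⟩, ht2.2⟩
        have h3 := ht2.1
        rw [hM] at h3
        rcases min_le_iff.1 h3 with h4 | h4
        · exact h4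
        · omega
      exact_mod_cast h1
    have hdec : ∀ t, M ≤ t → t < K → dec b K E t = c (t + 1) - b * c t := by
      intro t hMt htK
      unfold dec
      rw [dif_pos htK]
      by_cases hcase : M ≤ t ∧ ∀ j ∈ J, ¬ (j ≤ t ∧ t < j + R)
      · have h1 : E ⟨t, htK⟩ = some ⟨(c (t + 1) - b * c t + h0).toNat, by
          have := hinc t
          have h1 := abs_le.1 this
          omega⟩ := by
          rw [hE]; dsimp only
          rw [if_pos hcase]
        rw [h1]
        have := hinc t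
        have h1 := abs_le.1 this
        show (((c (t + 1) - b * c t + h0).toNat : ℕ) : ℤ) - (((b + 1) / 2 : ℕ) : ℤ) = _
        rw [Int.toNat_of_nonneg (by omega)]
        omega
      · have h1 : E ⟨t, htK⟩ = none := by
          rw [hE]; dsimp only
          rw [if_neg hcase]
        rw [h1]
        show (0 : ℤ) = _
        symm
        apply hcov
        by_contra hcon
        push Not at hcon
        apply hcase
        exact ⟨hMt, fun j hj hjj => absurd hjj.2 (not_lt.2 (hcon j hj hjj.1))⟩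
    have hrec : ∀ n, M + n ≤ K → recon b (dec b K E) M (c M) n = c (M + n) := by
      intro n
      induction n with
      | zero => intro _; rfl
      | succ n ih =>
        intro hn
        rw [recon, ih (by omega), hdec (M + n) (by omega) (by omega)]
        rw [show M + (n + 1) = M + n + 1 by ring]
        ring
    have hMK : M ≤ K := min_le_right _ _
    have hML : M ≤ L := min_le_left _ _
    have hcK := hrec (K - M) (by omega)
    rw [show M + (K - M) = K by omega] at hcK
    refine ⟨(c K : ℝ) / ((b : ℝ) ^ (l + K) * D), ?_, ?_⟩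
    · rw [hF, Finset.mem_image]
      refine ⟨(D, c M, E), ?_, ?_⟩
      · rw [Finset.mem_product, Finset.mem_product]
        refine ⟨Finset.mem_range.2 hD, ?_, hEmem⟩
        show c M ∈ Finset.Icc (-(A : ℤ)) A
        rw [Finset.mem_Icc, ← abs_le]
        have hD' : (D : ℝ) ≤ (b : ℝ) ^ K' := by exact_mod_cast hD.le
        have h1 : |(b : ℝ) ^ M * x| ≤ N * (b : ℝ) ^ K' := by
          rw [hx, abs_mul, abs_mul, abs_mul, abs_of_pos (by positivity : (0 : ℝ) < (b : ℝ) ^ M),
            abs_of_pos (by positivity : (0 : ℝ) < (b : ℝ) ^ l), abs_of_pos hDr0]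
          have h2 : |X| ≤ |T| := hX.trans (le_abs_self T)
          calc (b : ℝ) ^ M * ((b : ℝ) ^ l * |X| * D) = (b : ℝ) ^ (M + l) * |X| * D := by
                rw [pow_add]; ring
            _ ≤ (b : ℝ) ^ (L + l) * |T| * (b : ℝ) ^ K' := by gcongr
            _ ≤ N * (b : ℝ) ^ K' := by
                gcongr
                exact Nat.le_ceil _
        have h2 : |((c M : ℤ) : ℝ)| ≤ ((A : ℤ) : ℝ) := by
          calc |((c M : ℤ) : ℝ)| = |(b : ℝ) ^ M * x - ((b : ℝ) ^ M * x - c M)| := by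
                congr 1; ring
            _ ≤ |(b : ℝ) ^ M * x| + |(b : ℝ) ^ M * x - c M| := abs_sub _ _
            _ ≤ N * (b : ℝ) ^ K' + 1 := by linarith [hcr M]
            _ = ((A : ℤ) : ℝ) := by rw [hA]; push_cast; ring
        exact_mod_cast h2
      · show ((recon b (dec b K E) M (c M) (K - M) : ℤ) : ℝ) / ((b : ℝ) ^ (l + K) * (D : ℝ)) = _
        rw [hcK]
    · have h1 := hcr K
      have h2 : X - (c K : ℝ) / ((b : ℝ) ^ (l + K) * D) =
          ((b : ℝ) ^ K * x - c K) / ((b : ℝ) ^ (l + K) * D) := by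
        rw [← hxj K]
        field_simp
      rw [h2, abs_div, abs_of_pos (by positivity : (0 : ℝ) < (b : ℝ) ^ (l + K) * D),
        div_le_div_iff₀ (by positivity) (by positivity)]
      have h3 : (b : ℝ) ^ K ≤ (b : ℝ) ^ (l + K) := pow_le_pow_right₀ hb1 (by omega)
      have h4 : (0 : ℝ) < (b : ℝ) ^ K := by positivity
      calc |(b : ℝ) ^ K * x - c K| * (b : ℝ) ^ K ≤ 1 / 2 * (b : ℝ) ^ K := by gcongr
        _ ≤ 1 * ((b : ℝ) ^ (l + K) * D) := by nlinarith

end Pool.Agent.Helper48.NE
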