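import Pool.Agent.Helper48.NE.Cover
import Pool.Agent.Helper44.KM.PYTH

/-! NULL: the exceptional set of the frozen problem carries no mass. -/

open MeasureTheory Filter Topology

namespace Pool.Agent.Helper48.NE

open Pool.Agent.Helper5.KM Pool.Agent.Helper5.NE

variable {b : ℕ}

/-- an antitone nonnegative sequence which does not tend to zero is bounded below -/
theorem exists_lower {a : ℕ → ℝ} (ha : Antitone a) (h0 : ∀ l, 0 ≤ a l)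
    (h : ¬ Tendsto a atTop (𝓝 0)) : ∃ a₀ : ℝ, 0 < a₀ ∧ ∀ l, a₀ ≤ a l := by
  have hbdd : BddBelow (Set.range a) := ⟨0, by rintro _ ⟨l, rfl⟩; exact h0 l⟩
  have ht := tendsto_atTop_ciInf ha hbdd
  have hge : 0 ≤ ⨅ l, a l := le_ciInf h0
  refine ⟨⨅ l, a l, lt_of_le_of_ne hge ?_, fun l => ciInf_le hbdd l⟩
  intro hz
  rw [← hz] at ht
  exact h ht

/-- NULL, with the parts NEAR, NULLW and INT as hypotheses -/
theorem null_of (hb : 2 ≤ b) {μ : Measure (Sq b)} [IsProbabilityMeasure μ] (h : EProc b μ)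
    (hnear : ∀ (X : ℝ) (q : Sq b → ℂ), StronglyMeasurable[past b 0] q → (∀ y, ‖q y‖ ≤ 1) →
      ∀ a₀ : ℝ, 0 < a₀ → (∀ l, a₀ ≤ ∫ y, ‖Qf μ X q l y‖ ^ 2 ∂μ) → ∀ C₀ : ℕ, 1 ≤ C₀ →
      ∀ η : ℝ, 0 < η → ∃ R l L K₀ : ℕ, ∀ K' ≥ K₀, Near b l L R (C₀ * K') K' η X)
    (hnullw : ∃ s : ℝ, 0 < s ∧ ∀ (C : ℝ) (C₀ K₀ : ℕ), 1 ≤ C₀ →
      ∀ W : (K' : ℕ) → Finset (Fin (C₀ * K') → Fin b),
        (∀ K', ((W K').card : ℝ) ≤ C * Real.exp (s * ((C₀ * K' : ℕ) : ℝ))) →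
        μ {y | ∀ K' ≥ K₀, blk 0 (C₀ * K') y ∈ W K'} = 0)
    (hint : ∀ (I : Set ℝ) (g : ℝ → ℝ) (c₀ : ℝ), 0 < c₀ →
      (∀ u ∈ I, ∀ v ∈ I, c₀ * |u - v| ≤ |g u - g v|) →
      ∃ C : ℝ, 0 ≤ C ∧ ∀ (K : ℕ) (c : ℝ), ∃ W : Finset (Fin K → Fin b), (W.card : ℝ) ≤ C ∧
        ∀ y : Sq b, val y ∈ I → |g (val y) - c| ≤ 1 / (b : ℝ) ^ K → blk 0 K y ∈ W)
    (I : Set ℝ) (g : ℝ → ℝ) (c₀ : ℝ) (hc₀ : 0 < c₀)
    (hg : ∀ u ∈ I, ∀ v ∈ I, c₀ * |u - v| ≤ |g u - g v|) (T : ℝ) (hT : ∀ u ∈ I, |g u| ≤ T)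
    (q : ℝ → Sq b → ℂ) (hq : ∀ X, StronglyMeasurable[past b 0] (q X))
    (hq1 : ∀ X y, ‖q X y‖ ≤ 1) :
    μ {y | val y ∈ I ∧ ¬ Tendsto (fun l : ℕ =>
      ∫ z, ‖Qf μ (g (val y)) (q (g (val y))) l z‖ ^ 2 ∂μ) atTop (𝓝 0)} = 0 := by
  classical
  obtain ⟨s, hs, hW⟩ := hnullw
  obtain ⟨C₀, η, hC₀, hη, hcov⟩ := cover hb s hs
  obtain ⟨Ci, hCi, hwords⟩ := hint I g c₀ hc₀ hg
  have hsub : {y : Sq b | val y ∈ I ∧ ¬ Tendsto (fun l : ℕ =>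
      ∫ z, ‖Qf μ (g (val y)) (q (g (val y))) l z‖ ^ 2 ∂μ) atTop (𝓝 0)} ⊆
      ⋃ p : ℕ × ℕ × ℕ × ℕ, {y : Sq b | val y ∈ I ∧ ∀ K' ≥ p.2.2.2,
        Near b p.2.1 p.2.2.1 p.1 (C₀ * K') K' η (g (val y))} := by
    rintro y ⟨hyI, hy⟩
    set X := g (val y) with hX
    have hanti : Antitone (fun l : ℕ => ∫ z, ‖Qf μ X (q X) l z‖ ^ 2 ∂μ) := by
      refine antitone_nat_of_succ_le fun l => ?_
      have h1 := Pool.Agent.Helper44.KM.pyth h.erg.toMeasurePreserving X (q X) (hq X) (hq1 X) l 1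
      have h2 : 0 ≤ ∫ y, ‖e ((b : ℝ) ^ l * X * Bk 1 y) * Qf μ X (q X) l (sh (1 : ℕ) y) -
          Qf μ X (q X) (l + 1) y‖ ^ 2 ∂μ := integral_nonneg fun y => by positivity
      linarith
    obtain ⟨a₀, ha₀, ha⟩ := exists_lower hanti
      (fun l => integral_nonneg fun y => by positivity) hy
    obtain ⟨R, l, L, K₀, hN⟩ := hnear X (q X) (hq X) (hq1 X) a₀ ha₀ ha C₀ hC₀ η hη
    exact Set.mem_iUnion.2 ⟨(R, l, L, K₀), hyI, hN⟩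
  refine measure_mono_null hsub (measure_iUnion_null fun p => ?_)
  obtain ⟨R, l, L, K₀⟩ := p
  obtain ⟨C, hF⟩ := hcov T l L R
  choose F hFc hFcov using hF
  choose W hWc hWb using fun K' c => hwords (C₀ * K') c
  refine measure_mono_null ?_ (hW (Ci * C) C₀ K₀ hC₀ (fun K' => (F K').biUnion fun c => W K' c)
    fun K' => ?_)
  · rintro y ⟨hyI, hy⟩
    intro K' hK'
    obtain ⟨c, hc, hcX⟩ := hFcov K' (g (val y)) (hT _ hyI) (hy K' hK')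
    exact Finset.mem_biUnion.2 ⟨c, hc, hWb K' c y hyI hcX⟩
  · calc (((F K').biUnion fun c => W K' c).card : ℝ) ≤ ∑ c ∈ F K', ((W K' c).card : ℝ) := by
          exact_mod_cast Finset.card_biUnion_le
      _ ≤ ∑ c ∈ F K', Ci := Finset.sum_le_sum fun c _ => hWc K' c
      _ = Ci * (F K').card := by rw [Finset.sum_const, nsmul_eq_mul, mul_comm]
      _ ≤ Ci * (C * Real.exp (s * ((C₀ * K' : ℕ) : ℝ))) :=
          mul_le_mul_of_nonneg_left (hFc K') hCi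
      _ = Ci * C * Real.exp (s * ((C₀ * K' : ℕ) : ℝ)) := by ring

end Pool.Agent.Helper48.NE
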